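import Pool.Agent.H2.NL.Basic

/-!
MP_fd35e1_ag, board nil_modules, row PFA
-/

set_option autoImplicit false
set_option linter.unusedSectionVars false

open Matrix Pool.Agent.H2.NL Pool.Agent.H64.CC

namespace Pool.Agent.H2.NLR

section

variable {K : Type} [Field K] {I J : Type} [Fintype I] [DecidableEq I] [Fintype J]
  [DecidableEq J] (j : Matrix I J K)

theorem pf_nil (t : List J → K) : pf j t [] = t [] := rfl

theorem pf_cons (t : List J → K) (a : I) (w : List I) :
    pf j t (a :: w) = ∑ b, j a b * pf j (fun l => t (b :: l)) w := rfl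

theorem pf_sum {M : Type} [Fintype M] (w : List I) (f : M → List J → K) :
    pf j (fun l => ∑ m, f m l) w = ∑ m, pf j (f m) w := by
  induction w generalizing f with
  | nil => rfl
  | cons a w ih =>
    rw [pf_cons]
    have h : ∀ b : J, pf j (fun l => ∑ m, f m (b :: l)) w = ∑ m, pf j (fun l => f m (b :: l)) w :=
      fun b => ih fun m l => f m (b :: l)
    simp only [h, Finset.mul_sum, pf_cons]
    rw [Finset.sum_comm]

theorem pf_mul (s : K) (w : List I) (t : List J → K) :
    pf j (fun l => s * t l) w = s * pf j t w := pf_smul j s w t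

theorem sw_lin (o : I → Bool) {M : Type} [Fintype M] (k : ℕ) :
    ∀ (f : M → K) (g : M → List I → K) (w : List I),
    sw o k (fun l => ∑ m, f m * g m l) w = ∑ m, f m * sw o k (g m) w := by
  induction k with
  | zero =>
    intro f g w
    match w with
    | [] => rfl
    | [a] => rfl
    | a :: b :: w =>
      show ks K (o a) (o b) * ∑ m, f m * g m (b :: a :: w) =
        ∑ m, f m * (ks K (o a) (o b) * g m (b :: a :: w))
      rw [Finset.mul_sum]
      exact Finset.sum_congr rfl fun m _ => by ring
  | succ k ih =>
    intro f g w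
    match w with
    | [] => rfl
    | a :: w => exact ih f (fun m l => g m (a :: l)) w

theorem con_lin (η : Matrix I I K) {M : Type} [Fintype M] (k : ℕ) :
    ∀ (f : M → K) (g : M → List I → K) (w : List I),
    con η k (fun l => ∑ m, f m * g m l) w = ∑ m, f m * con η k (g m) w := by
  induction k with
  | zero =>
    intro f g w
    show ∑ a, ∑ b, η a b * ∑ m, f m * g m (a :: b :: w) =
      ∑ m, f m * ∑ a, ∑ b, η a b * g m (a :: b :: w)
    simp only [Finset.mul_sum]
    rw [Finset.sum_comm]
    have h : ∀ x : I, ∑ a, ∑ m, η a x * (f m * g m (a :: x :: w)) =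
        ∑ m, ∑ a, η a x * (f m * g m (a :: x :: w)) := fun x => Finset.sum_comm
    simp only [h]
    rw [Finset.sum_comm]
    refine Finset.sum_congr rfl fun m _ => ?_
    rw [Finset.sum_comm]
    exact Finset.sum_congr rfl fun a _ => Finset.sum_congr rfl fun b _ => by ring
  | succ k ih =>
    intro f g w
    match w with
    | [] =>
      show (0 : K) = ∑ m, f m * 0
      simp
    | a :: w => exact ih f (fun m l => g m (a :: l)) w

theorem der_lin (T : Matrix I I K) {M : Type} [Fintype M] (w : List I) :
    ∀ (f : M → K) (g : M → List I → K),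
    der T (fun l => ∑ m, f m * g m l) w = ∑ m, f m * der T (g m) w := by
  induction w with
  | nil =>
    intro f g
    show (0 : K) = ∑ m, f m * 0
    simp
  | cons a w ih =>
    intro f g
    show ∑ b, T a b * ∑ m, f m * g m (b :: w) + der T (fun l' => ∑ m, f m * g m (a :: l')) w =
      ∑ m, f m * (∑ b, T a b * g m (b :: w) + der T (fun l' => g m (a :: l')) w)
    rw [ih f fun m l => g m (a :: l)]
    simp only [mul_add, Finset.mul_sum, Finset.sum_add_distrib]
    congr 1
    rw [Finset.sum_comm]
    exact Finset.sum_congr rfl fun m _ => Finset.sum_congr rfl fun b _ => by ring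

/-- exchanges -/
theorem pf_sw (o : I → Bool) (o' : J → Bool) (h : ∀ a b, j a b ≠ 0 → o a = o' b) (k : ℕ) :
    ∀ (t : List J → K) (w : List I), pf j (sw o' k t) w = sw o k (pf j t) w := by
  induction k with
  | zero =>
    intro t w
    match w with
    | [] => rfl
    | [a] => rfl
    | x :: y :: w =>
      show ∑ a, j x a * ∑ b, j y b * pf j (fun l => ks K (o' a) (o' b) * t (b :: a :: l)) w =
        ks K (o x) (o y) * ∑ b, j y b * ∑ a, j x a * pf j (fun l => t (b :: a :: l)) w
      simp only [pf_mul, Finset.mul_sum]
      rw [Finset.sum_comm]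
      refine Finset.sum_congr rfl fun b _ => Finset.sum_congr rfl fun a _ => ?_
      by_cases h1 : j x a = 0
      · rw [h1]; ring
      by_cases h2 : j y b = 0
      · rw [h2]; ring
      rw [h x a h1, h y b h2]
      ring
  | succ k ih =>
    intro t w
    match w with
    | [] => rfl
    | x :: w =>
      show ∑ a, j x a * pf j (sw o' k fun l => t (a :: l)) w =
        sw o k (fun l => ∑ a, j x a * pf j (fun l => t (a :: l)) l) w
      rw [sw_lin]
      exact Finset.sum_congr rfl fun a _ => by rw [ih]

/-- contractions -/
theorem pf_con (η : Matrix I I K) (k : ℕ) :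
    ∀ (t : List J → K) (w : List I), k ≤ w.length →
    con η k (pf j t) w = pf j (con (jᵀ * η * j) k t) w := by
  induction k with
  | zero =>
    intro t w _
    show ∑ a, ∑ b, η a b * ∑ a', j a a' * ∑ b', j b b' * pf j (fun l => t (a' :: b' :: l)) w =
      pf j (fun l => ∑ a', ∑ b', (jᵀ * η * j) a' b' * t (a' :: b' :: l)) w
    rw [pf_sum]
    have e : ∀ a' : J, pf j (fun l => ∑ b', (jᵀ * η * j) a' b' * t (a' :: b' :: l)) w =
        ∑ b', (jᵀ * η * j) a' b' * pf j (fun l => t (a' :: b' :: l)) w := by
      intro a'
      rw [pf_sum]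
      exact Finset.sum_congr rfl fun b' _ => pf_mul j _ w _
    simp only [e]
    have e2 : ∀ a' b', (jᵀ * η * j) a' b' = ∑ a, ∑ b, j a a' * η a b * j b b' := by
      intro a' b'
      rw [Matrix.mul_apply]
      simp only [Matrix.mul_apply, Matrix.transpose_apply, Finset.sum_mul]
      rw [Finset.sum_comm]
    simp only [e2, Finset.sum_mul, Finset.mul_sum]
    -- both sides are sums over a, b, a', b'
    have l1 : ∀ (a : I), ∑ b, ∑ a', ∑ b', η a b * (j a a' * (j b b' *
        pf j (fun l => t (a' :: b' :: l)) w)) = ∑ a', ∑ b', ∑ b, η a b * (j a a' * (j b b' *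
        pf j (fun l => t (a' :: b' :: l)) w)) := by
      intro a
      rw [Finset.sum_comm]
      exact Finset.sum_congr rfl fun a' _ => Finset.sum_comm
    simp only [l1]
    rw [Finset.sum_comm]
    refine Finset.sum_congr rfl fun a' _ => ?_
    rw [Finset.sum_comm]
    refine Finset.sum_congr rfl fun b' _ => ?_
    exact Finset.sum_congr rfl fun a _ => Finset.sum_congr rfl fun b _ => by ring
  | succ k ih =>
    intro t w hw
    match w, hw with
    | x :: w, hw =>
      show con η k (fun l => ∑ a, j x a * pf j (fun l => t (a :: l)) l) w =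
        ∑ a, j x a * pf j (con (jᵀ * η * j) k fun l => t (a :: l)) w
      rw [con_lin]
      refine Finset.sum_congr rfl fun a _ => ?_
      rw [ih _ _ (by simpa using hw)]

/-- products -/
theorem pf_tp (t' : List J → K) (n : ℕ) : ∀ (t : List J → K) (w : List I),
    pf j (tp n t t') w = tp n (pf j t) (pf j t') w := by
  induction n with
  | zero =>
    intro t w
    show pf j (fun l => t (l.take 0) * t' (l.drop 0)) w = pf j t (w.take 0) * pf j t' (w.drop 0)
    have e : (fun l : List J => t (l.take 0) * t' (l.drop 0)) = fun l => t [] * t' l := by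
      funext l
      simp
    rw [e, pf_mul]
    simp [pf_nil]
  | succ n ih =>
    intro t w
    match w with
    | [] =>
      show t [] * t' [] = t [] * t' []
      rfl
    | x :: w =>
      show ∑ a, j x a * pf j (tp n (fun l => t (a :: l)) t') w =
        (∑ a, j x a * pf j (fun l => t (a :: l)) (w.take n)) * pf j t' (w.drop n)
      rw [Finset.sum_mul]
      refine Finset.sum_congr rfl fun a _ => ?_
      rw [ih]
      show j x a * (pf j _ _ * pf j _ _) = _
      ring

theorem pf_zero (w : List I) : pf j (fun _ => 0) w = 0 := by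
  have h := pf_mul j 0 w (fun _ => 0)
  simp only [zero_mul] at h
  exact h

/-- tensors of order two -/
theorem pf_two (s : Matrix J J K) : pf j (two s) = two (j * s * jᵀ) := by
  funext w
  match w with
  | [] => rfl
  | [a] =>
    show ∑ b, j a b * (0 : K) = 0
    simp
  | [a, b] =>
    show ∑ a', j a a' * ∑ b', j b b' * s a' b' = (j * s * jᵀ) a b
    rw [Matrix.mul_apply]
    simp only [Matrix.mul_apply, Matrix.transpose_apply, Finset.sum_mul, Finset.mul_sum]
    rw [Finset.sum_comm]
    exact Finset.sum_congr rfl fun a _ => Finset.sum_congr rfl fun b _ => by ring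
  | a :: b :: c :: w =>
    show ∑ a', j a a' * ∑ b', j b b' * ∑ c', j c c' * pf j (fun _ => (0 : K)) w = 0
    simp only [pf_zero]
    simp

/-- derivations -/
theorem pf_der (T : Matrix I I K) (T' : Matrix J J K) (h : T * j = j * T') (w : List I) :
    ∀ t : List J → K, der T (pf j t) w = pf j (der T' t) w := by
  induction w with
  | nil => intro t; rfl
  | cons x w ih =>
    intro t
    show ∑ y, T x y * ∑ a, j y a * pf j (fun l => t (a :: l)) w +
        der T (fun l => ∑ a, j x a * pf j (fun l => t (a :: l)) l) w =
      ∑ a, j x a * pf j (fun l => ∑ b, T' a b * t (b :: l) + der T' (fun l' => t (a :: l')) l) w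
    rw [der_lin]
    have e1 : ∀ a : J, pf j (fun l => ∑ b, T' a b * t (b :: l) +
        der T' (fun l' => t (a :: l')) l) w =
        ∑ b, T' a b * pf j (fun l => t (b :: l)) w + pf j (der T' fun l' => t (a :: l')) w := by
      intro a
      have h1 := pf_add j w (fun l => ∑ b, T' a b * t (b :: l)) (der T' fun l' => t (a :: l'))
      have h2 : pf j (fun l => ∑ b, T' a b * t (b :: l)) w =
          ∑ b, T' a b * pf j (fun l => t (b :: l)) w := by
        rw [pf_sum]
        exact Finset.sum_congr rfl fun b _ => pf_mul j _ w _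
      rw [← h2]
      exact h1
    simp only [e1, mul_add, Finset.sum_add_distrib, ih]
    congr 1
    have e2 : ∀ a : J, ∑ y, T x y * j y a = ∑ b, j x b * T' b a := by
      intro a
      have := congrFun (congrFun h x) a
      rwa [Matrix.mul_apply, Matrix.mul_apply] at this
    simp only [Finset.mul_sum]
    rw [Finset.sum_comm]
    have e3 : ∀ a : J, ∑ y, T x y * (j y a * pf j (fun l => t (a :: l)) w) =
        ∑ b, j x b * (T' b a * pf j (fun l => t (a :: l)) w) := by
      intro a
      have h1 : ∀ y, T x y * (j y a * pf j (fun l => t (a :: l)) w) =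
          (T x y * j y a) * pf j (fun l => t (a :: l)) w := fun y => by ring
      have h2 : ∀ b, j x b * (T' b a * pf j (fun l => t (a :: l)) w) =
          (j x b * T' b a) * pf j (fun l => t (a :: l)) w := fun y => by ring
      simp only [h1, h2]
      rw [← Finset.sum_mul, ← Finset.sum_mul, e2]
    simp only [e3]
    exact Finset.sum_comm

end

theorem pf_PFA : T_PFA := by
  intro K _ I J _ _ _ _ j o o' h
  exact ⟨fun k t => funext fun w => pf_sw j o o' h k t w, fun η k t w hw => pf_con j η k t w hw,
    fun n t t' w => pf_tp j t' n t w, fun s => pf_two j s,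
    fun T T' hT t => funext fun w => pf_der j T T' hT w t⟩

end Pool.Agent.H2.NLR
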